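import Pool.Agent.Helper227.RD.Neg3

set_option autoImplicit false

open Pool.Agent.Helper227
open scoped ENNReal

namespace Pool.Agent.Results.MP_33dedf_lc.DimBelowJumpFails

/-- Universal prefix-free oracle machines exist, and for every choice of them (`U A` universal
relative to `A`) the answer to the question is negative, already for the computable oracle
`Z = zero`: there is `s` in `(0,1)` such that every `X` with `dim(X) = s` has some `Y` computable
from `X'` with `dim^{0'}(Y) ≥ 1 > s`. In particular the statement (for all `Z` and all `s` in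
`(0,1)` there is `X` with `dim^Z(X) = s` such that `dim^{0'}(Y) ≤ s` for all `Y ≤_T X'`) fails. -/
theorem result :
    (∃ U : (ℕ → Bool) → List Bool →. List Bool, ∀ A, IsUniversalIn A (U A)) ∧
    ∀ U : (ℕ → Bool) → List Bool →. List Bool, (∀ A, IsUniversalIn A (U A)) →
      (∃ s : ℝ, 0 < s ∧ s < 1 ∧ ∀ X : ℕ → Bool, dimU (U zero) X = ENNReal.ofReal s →
        ∃ Y : ℕ → Bool, TLe Y (jump X) ∧ 1 ≤ dimU (U (jump zero)) Y) ∧
      ¬ ∀ (Z : ℕ → Bool) (s : ℝ), 0 < s → s < 1 →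
        ∃ X : ℕ → Bool, dimU (U Z) X = ENNReal.ofReal s ∧
          ∀ Y : ℕ → Bool, TLe Y (jump X) → dimU (U (jump zero)) Y ≤ ENNReal.ofReal s := by
  refine ⟨⟨univ, isUniversalIn_univ⟩, fun U hU => ?_⟩
  have key : ∃ s : ℝ, 0 < s ∧ s < 1 ∧ ∀ X : ℕ → Bool, dimU (U zero) X = ENNReal.ofReal s →
      ∃ Y : ℕ → Bool, TLe Y (jump X) ∧ 1 ≤ dimU (U (jump zero)) Y :=
    ⟨Neg.rv (Neg.YY (U (jump zero))), Neg.rv_pos _, Neg.rv_lt_one _, fun X hX =>
      ⟨Neg.YY (U (jump zero)), Neg.tLe_YY (hU zero) (tLe_zero X) (hU (jump zero)).1.1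
        (TLe.jump (tLe_zero X)) hX, Neg.one_le_dim (hU (jump zero))⟩⟩
  refine ⟨key, fun h => ?_⟩
  obtain ⟨s, h0, h1, h2⟩ := key
  obtain ⟨X, hX, hY⟩ := h zero s h0 h1
  obtain ⟨Y, h3, h4⟩ := h2 X hX
  have h5 := h4.trans (hY Y h3)
  rw [ENNReal.one_le_ofReal] at h5
  linarith

end Pool.Agent.Results.MP_33dedf_lc.DimBelowJumpFails
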